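import Mathlib

namespace Pool.Agent.PyberSolv

open MulAction

universe u v

/-- Averaging: a semilinear map of finite order on a set acted on by a finite commutative group
has a fixed point in each orbit it preserves, when its order is coprime to the group. -/
theorem torsor_fix {M : Type u} {S : Type v} [CommGroup M] [MulAction M S] (σ : M →* M)
    (α : S → S) (hα : ∀ (m : M) (s : S), α (m • s) = σ m • α s) (r : ℕ)
    (hc : Nat.Coprime r (Nat.card M)) (s : S) (hr : α^[r] s = s) (n : M) (hn : α s = n • s) :
    ∃ m : M, α (m • s) = m • s := by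
  -- the cocycle
  let ν : ℕ → M := fun k => Nat.rec 1 (fun _ y => σ y * n) k
  have ν0 : ν 0 = 1 := rfl
  have νs : ∀ k, ν (k + 1) = σ (ν k) * n := fun k => rfl
  have hit : ∀ k, α^[k] s = ν k • s := by
    intro k
    induction k with
    | zero => simp [ν0]
    | succ k ih =>
      rw [Function.iterate_succ_apply', ih, hα, hn, νs, mul_smul]
  let y : M := ∏ k ∈ Finset.range r, ν k
  have h1 : σ y * n ^ r = y * ν r := by
    have e1 : σ y * n ^ r = ∏ k ∈ Finset.range r, ν (k + 1) := by
      simp only [y, map_prod, νs, Finset.prod_mul_distrib, Finset.prod_const, Finset.card_range]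
    rw [e1]
    have e2 := Finset.prod_range_succ' ν r
    have e3 := Finset.prod_range_succ ν r
    rw [ν0, mul_one] at e2
    rw [← e2, e3]
  have h2 : ν r • s = s := by rw [← hit, hr]
  obtain ⟨t, ht⟩ : ∃ t : ℕ, n ^ (r * t) = n := by
    have hco : r.Coprime (orderOf n) :=
      Nat.Coprime.coprime_dvd_right (orderOf_dvd_natCard n) hc
    obtain ⟨t, ht⟩ := exists_pow_eq_self_of_coprime hco
    exact ⟨t, by rw [pow_mul]; exact ht⟩
  refine ⟨y ^ t, ?_⟩
  rw [hα, hn, smul_smul]
  have h3 : σ (y ^ t) * n = y ^ t * ν r ^ t := by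
    have : (σ y * n ^ r) ^ t = (y * ν r) ^ t := by rw [h1]
    rw [mul_pow, mul_pow, ← pow_mul, ht] at this
    rw [map_pow, this]
  rw [h3, mul_smul]
  congr 1
  clear h3 h1 ht
  induction t with
  | zero => simp
  | succ t ih => rw [pow_succ, mul_smul, h2, ih]

/-- Number of orbits. -/
noncomputable def orb (G : Type u) (X : Type v) [Group G] [MulAction G X] : ℕ :=
  Nat.card (orbitRel.Quotient G X)

/-- Comparison of orbit numbers through an injection on orbits. -/
theorem orb_le_of_inj {G : Type*} {X : Type*} {G' : Type*} {X' : Type*} [Group G] [MulAction G X]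
    [Group G'] [MulAction G' X'] [Finite X'] (φ : X → X')
    (h : ∀ x y, (∃ g : G', g • φ x = φ y) → ∃ g : G, g • x = y) : orb G X ≤ orb G' X' := by
  have : Finite (orbitRel.Quotient G' X') := Quotient.finite _
  refine Nat.card_le_card_of_injective
    (fun o : orbitRel.Quotient G X => (Quotient.mk _ (φ o.out) : orbitRel.Quotient G' X')) ?_
  intro o o' hoo
  have h1 : (orbitRel G' X') (φ o.out) (φ o'.out) := Quotient.exact hoo
  obtain ⟨g, hg⟩ := h1
  obtain ⟨g', hg'⟩ := h _ _ ⟨g, hg⟩
  rw [← Quotient.out_eq o, ← Quotient.out_eq o']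
  apply Quotient.sound
  exact ⟨g', hg'⟩

/-- Comparison of orbit numbers through an equivariant surjection. -/
theorem orb_le_of_surj {G : Type*} {X : Type*} {G' : Type*} {X' : Type*} [Group G] [MulAction G X]
    [Group G'] [MulAction G' X'] [Finite X] (f : G → G') (φ : X → X')
    (he : ∀ g x, φ (g • x) = f g • φ x) (hs : Function.Surjective φ) : orb G' X' ≤ orb G X := by
  have : Finite (orbitRel.Quotient G X) := Quotient.finite _
  refine Nat.card_le_card_of_surjective
    (Quotient.map φ ?_ : orbitRel.Quotient G X → orbitRel.Quotient G' X') ?_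
  · rintro x y ⟨g, hg⟩
    exact ⟨f g, (he g y).symm.trans (congrArg φ hg)⟩
  · intro o
    obtain ⟨x', rfl⟩ := Quotient.exists_rep o
    obtain ⟨x, rfl⟩ := hs x'
    exact ⟨Quotient.mk _ x, rfl⟩

/-- Burnside comparison: orbit numbers for one group are ordered if fixed point numbers are. -/
theorem orb_le_of_fixed {G : Type*} {X : Type*} {X' : Type*} [Group G] [Finite G] [MulAction G X]
    [MulAction G X'] [Finite X] [Finite X']
    (h : ∀ g : G, Nat.card (fixedBy X g) ≤ Nat.card (fixedBy X' g)) : orb G X ≤ orb G X' := by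
  have e1 := Nat.card_congr (sigmaFixedByEquivOrbitsProdGroup G X)
  have e2 := Nat.card_congr (sigmaFixedByEquivOrbitsProdGroup G X')
  have := Fintype.ofFinite G
  rw [Nat.card_prod, Nat.card_sigma] at e1 e2
  have h3 : orb G X * Nat.card G ≤ orb G X' * Nat.card G := by
    unfold orb
    rw [← e1, ← e2]
    exact Finset.sum_le_sum fun g _ => h g
  exact Nat.le_of_mul_le_mul_right h3 Nat.card_pos

end Pool.Agent.PyberSolv
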