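import Pool.Agent.PyberSolv.Sharp

namespace Pool.Agent.PyberSolv

open MulAction

universe u

/-- The set of compatible pairs. -/
def pairs {H X Y : Type u} [Group H] [MulAction H X] [MulAction H Y] (P : Over H X)
    (Q : Over H Y) : SubMulAction H (X × Y) where
  carrier := {t | Q.q t.2 • t.1 = t.1 ∧ P.q t.1 • t.2 = t.2}
  smul_mem' := by
    rintro h ⟨x, y⟩ ⟨h1, h2⟩
    simp only at h1 h2
    simp only [Set.mem_ofPred_eq, Prod.smul_mk]
    constructor
    · rw [Q.equi, smul_smul, mul_assoc, inv_mul_cancel, mul_one, mul_smul, h1]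
    · rw [P.equi, smul_smul, mul_assoc, inv_mul_cancel, mul_one, mul_smul, h2]

/-- The part of an `H`-set over `H` lying over a subgroup, as a set with action of the subgroup. -/
def part {H Y : Type u} [Group H] [MulAction H Y] (Q : Over H Y) (A : Subgroup H) :
    SubMulAction A Y where
  carrier := {y | Q.q y ∈ A}
  smul_mem' := by
    rintro a y hy
    simp only [Set.mem_ofPred_eq] at hy ⊢
    have : Q.q (a • y) = a.1 * Q.q y * a.1⁻¹ := Q.equi a.1 y
    rw [this]
    exact A.mul_mem (A.mul_mem a.2 hy) (A.inv_mem a.2)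

section

variable {H X Y : Type u} [Group H] [MulAction H X] [MulAction H Y] (P : Over H X)
    (Q : Over H Y)

/-- Fixed pairs, fibred over the first coordinate and the group element under the second. -/
def fixedEquiv (g : H) : fixedBy (pairs P Q) g ≃
    Σ s : {s : X × H // g • s.1 = s.1 ∧ s.2 • s.1 = s.1}, Q.Fx s.1.2 {g, P.q s.1.1} where
  toFun t := ⟨⟨(t.1.1.1, Q.q t.1.1.2), congrArg (fun z => z.1.1) t.2, t.1.2.1⟩,
    ⟨t.1.1.2, rfl, by
      intro d hd
      rcases hd with rfl | hd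
      · exact congrArg (fun z => z.1.2) t.2
      · rw [Set.mem_singleton_iff] at hd
        rw [hd]
        exact t.1.2.2⟩⟩
  invFun s := ⟨⟨(s.1.1.1, s.2.1), by
      refine ⟨?_, ?_⟩
      · change Q.q s.2.1 • s.1.1.1 = s.1.1.1
        rw [s.2.2.1]
        exact s.1.2.2
      · exact s.2.2.2 _ (Or.inr rfl)⟩, by
      rw [mem_fixedBy]
      apply Subtype.ext
      apply Prod.ext
      · exact s.1.2.1
      · exact s.2.2.2 g (Or.inl rfl)⟩
  left_inv t := rfl
  right_inv s := by
    obtain ⟨⟨⟨x, a⟩, hs⟩, ⟨y, hy, hy'⟩⟩ := s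
    obtain rfl : Q.q y = a := hy
    rfl

/-- Fixed points in the part over `A`. -/
def fixedPartEquiv (A : Subgroup H) (g : A) : fixedBy (part Q A) g ≃
    Σ a : A, Q.Fx a.1 {g.1} where
  toFun t := ⟨⟨Q.q t.1.1, t.1.2⟩, ⟨t.1.1, rfl, by
      intro d hd
      rw [Set.mem_singleton_iff] at hd
      rw [hd]
      exact congrArg Subtype.val t.2⟩⟩
  invFun s := ⟨⟨s.2.1, by
      change Q.q s.2.1 ∈ A
      rw [s.2.2.1]
      exact s.1.2⟩, by
      rw [mem_fixedBy]
      apply Subtype.ext
      exact s.2.2.2 g.1 rfl⟩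
  left_inv t := rfl
  right_inv s := by
    obtain ⟨⟨a, ha⟩, ⟨y, hy, hy'⟩⟩ := s
    obtain rfl : Q.q y = a := hy
    rfl

theorem finite_fx {Z : Type u} [MulAction H Z] [Finite Z] (Q : Over H Z) (a : H) (D : Set H) :
    Finite (Q.Fx a D) := Subtype.finite

variable (N : Subgroup H) [Finite H] [Finite X] [Finite Y]

omit [Finite X] in
theorem finite_sharp (hN : ∀ x ∈ N, ∀ y ∈ N, x * y = y * x) : Finite (Q.Sharp N hN) := by
  have : Finite (Q.Pre N) := Q.finite_pre
  exact Quotient.finite _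

variable [N.Normal]

/-- Linearisation does not decrease the number of orbits on compatible pairs. -/
theorem orb_pairs_le (hN : ∀ x ∈ N, ∀ y ∈ N, x * y = y * x) :
    orb H (pairs P Q) ≤ orb H (pairs P (Q.sharp (N := N) hN)) := by
  have : Finite (Q.Sharp N hN) := finite_sharp Q N hN
  have : Finite (pairs P Q) := Subtype.finite
  have : Finite (pairs P (Q.sharp (N := N) hN)) := Subtype.finite
  refine orb_le_of_fixed ?_
  intro g
  rw [Nat.card_congr (fixedEquiv P Q g), Nat.card_congr (fixedEquiv P (Q.sharp (N := N) hN) g)]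
  have i1 : ∀ s : {s : X × H // g • s.1 = s.1 ∧ s.2 • s.1 = s.1},
      Finite (Q.Fx s.1.2 {g, P.q s.1.1}) := fun s => finite_fx Q _ _
  have i2 : ∀ s : {s : X × H // g • s.1 = s.1 ∧ s.2 • s.1 = s.1},
      Finite ((Q.sharp (N := N) hN).Fx s.1.2 {g, P.q s.1.1}) := fun s => finite_fx _ _ _
  have := Fintype.ofFinite {s : X × H // g • s.1 = s.1 ∧ s.2 • s.1 = s.1}
  rw [Nat.card_sigma, Nat.card_sigma]
  exact Finset.sum_le_sum fun s _ => Q.marks_le hN _ _

/-- Linearisation does not increase the number of orbits on a coprime part. -/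
theorem orb_part_le (hN : ∀ x ∈ N, ∀ y ∈ N, x * y = y * x) (A : Subgroup H)
    (hA : Nat.Coprime (Nat.card A) (Nat.card N)) :
    orb A (part (Q.sharp (N := N) hN) A) ≤ orb A (part Q A) := by
  have : Finite (Q.Sharp N hN) := finite_sharp Q N hN
  have : Finite (part Q A) := Subtype.finite
  have : Finite (part (Q.sharp (N := N) hN) A) := Subtype.finite
  refine orb_le_of_fixed ?_
  intro g
  rw [Nat.card_congr (fixedPartEquiv Q A g),
    Nat.card_congr (fixedPartEquiv (Q.sharp (N := N) hN) A g)]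
  have i1 : ∀ a : A, Finite (Q.Fx a.1 {g.1}) := fun s => finite_fx Q _ _
  have i2 : ∀ a : A, Finite ((Q.sharp (N := N) hN).Fx a.1 {g.1}) := fun s => finite_fx _ _ _
  have := Fintype.ofFinite A
  rw [Nat.card_sigma, Nat.card_sigma]
  refine Finset.sum_le_sum fun a _ => Q.le_marks hN _ _ ?_
  refine Nat.Coprime.coprime_dvd_left ?_ hA
  exact Subgroup.orderOf_dvd_natCard A g.2

end

end Pool.Agent.PyberSolv
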