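import Pool.Agent.PyberSolv.HallPair

namespace Pool.Agent.PyberSolv

universe u

theorem card_comap_mk {H : Type*} [Group H] [Finite H] (N : Subgroup H) [N.Normal]
    (K : Subgroup (H ⧸ N)) :
    Nat.card (K.comap (QuotientGroup.mk' N)) = Nat.card K * Nat.card N := by
  have h1 : (K.comap (QuotientGroup.mk' N)).index = K.index :=
    Subgroup.index_comap_of_surjective K (QuotientGroup.mk'_surjective N)
  have h2 := (K.comap (QuotientGroup.mk' N)).card_mul_index
  have h3 := K.card_mul_index
  have h4 : Nat.card H = Nat.card (H ⧸ N) * Nat.card N :=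
    Subgroup.card_eq_card_quotient_mul_card_subgroup N
  rw [h1, h4, ← h3] at h2
  have p : 0 < K.index := Nat.pos_of_ne_zero K.index_ne_zero_of_finite
  apply Nat.eq_of_mul_eq_mul_right p
  rw [h2]
  ring

/-- Existence of `p`-complements in finite solvable groups. -/
theorem exists_complement (p : ℕ) (hp : p.Prime) (n : ℕ) :
    ∀ (H : Type u) [Group H] [Finite H] [Group.IsSolvable H], Nat.card H = n →
      ∃ B : Subgroup H, Nat.Coprime (Nat.card B) p ∧ ∃ k, Nat.card B * p ^ k = Nat.card H := by
  induction n using Nat.strong_induction_on with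
  | _ n ih =>
  intro H _ _ _ hn
  rcases subsingleton_or_nontrivial H with hs | hnt
  · refine ⟨⊥, by simp, 0, ?_⟩
    simp
  · obtain ⟨D, hDn, hDb, hD⟩ := exists_comm_normal H
    -- the `p'`-part of `card H`
    obtain ⟨m, hm, hpm⟩ : ∃ m, Nat.card H = p ^ (Nat.card H).factorization p * m ∧
        Nat.Coprime m p := by
      refine ⟨Nat.card H / p ^ (Nat.card H).factorization p, ?_, ?_⟩
      · exact (Nat.ordProj_mul_ordCompl_eq_self _ _).symm
      · exact (Nat.coprime_ordCompl hp Nat.card_pos.ne').symm
    have small : ∀ (N : Subgroup H) [N.Normal], N ≠ ⊥ → ∃ B : Subgroup (H ⧸ N),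
        Nat.Coprime (Nat.card B) p ∧ ∃ k, Nat.card B * p ^ k = Nat.card (H ⧸ N) := by
      intro N hN hNb
      have hlt : Nat.card (H ⧸ N) < n := by
        rw [← hn, Subgroup.card_eq_card_quotient_mul_card_subgroup N]
        have h3 : 1 < Nat.card N := by
          by_contra hle
          exact hNb (Subgroup.card_eq_one.1 (le_antisymm (not_lt.1 hle) Nat.card_pos))
        exact lt_mul_of_one_lt_right Nat.card_pos h3
      exact ih _ hlt (H ⧸ N) rfl
    by_cases h1 : expSub D hD m = ⊥
    · -- `D` is a `p`-group
      have hexp : ∀ d ∈ D, d ^ (p ^ (Nat.card H).factorization p) = 1 := by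
        intro d hd
        have h2 : d ^ (p ^ (Nat.card H).factorization p) ∈ expSub D hD m := by
          refine ⟨D.pow_mem hd _, ?_⟩
          rw [← pow_mul, ← hm]
          exact pow_card_eq_one'
        rw [h1, Subgroup.mem_bot] at h2
        exact h2
      have hDp : IsPGroup p D := fun d => ⟨_, Subtype.ext (hexp d.1 d.2)⟩
      have := Fact.mk hp
      obtain ⟨j, hj⟩ := IsPGroup.iff_card.1 hDp
      obtain ⟨B, hB, k, hk⟩ := small D hDb
      set K := B.comap (QuotientGroup.mk' D) with hK
      have hKc : Nat.card K = Nat.card B * Nat.card D := card_comap_mk D B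
      have hDK : D ≤ K := by
        intro d hd
        rw [hK, Subgroup.mem_comap]
        have : QuotientGroup.mk' D d = 1 := (QuotientGroup.eq_one_iff d).2 hd
        rw [this]
        exact B.one_mem
      have hN : (D.subgroupOf K).Normal := Subgroup.normal_subgroupOf
      have hcD : Nat.card (D.subgroupOf K) = Nat.card D :=
        Nat.card_congr (Subgroup.subgroupOfEquivOfLe hDK).toEquiv
      have hidx : (D.subgroupOf K).index = Nat.card B := by
        have h5 := (D.subgroupOf K).card_mul_index
        rw [hcD, hKc, mul_comm] at h5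
        exact Nat.eq_of_mul_eq_mul_right Nat.card_pos h5
      obtain ⟨C, hC⟩ := Subgroup.exists_right_complement'_of_coprime (N := D.subgroupOf K) (by
        rw [hcD, hidx, hj]
        exact (hB.pow_right j).symm)
      have hCc : Nat.card C = Nat.card B := by
        have h6 := hC.card_mul_card
        rw [hcD, hKc, mul_comm] at h6
        exact Nat.eq_of_mul_eq_mul_right Nat.card_pos h6
      refine ⟨C.map K.subtype, ?_, k + j, ?_⟩
      · rw [Subgroup.card_subtype, hCc]
        exact hB
      · rw [Subgroup.card_subtype, hCc, pow_add, ← mul_assoc, hk, ← hj]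
        exact (Subgroup.card_eq_card_quotient_mul_card_subgroup D).symm
    · have hn1 : (expSub D hD m).Normal := expSub_normal D hD _
      have hc1 : Nat.Coprime (Nat.card (expSub D hD m)) p :=
        coprime_card_of_pow (G := expSub D hD m) (fun x => Subtype.ext x.2.2) hpm
      obtain ⟨B, hB, k, hk⟩ := small _ h1
      refine ⟨B.comap (QuotientGroup.mk' (expSub D hD m)), ?_, k, ?_⟩
      · rw [card_comap_mk]
        exact Nat.Coprime.mul_left hB hc1
      · rw [card_comap_mk, Subgroup.card_eq_card_quotient_mul_card_subgroup (expSub D hD m), ← hk]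
        ring

/-- Isomorphic groups have the same class number. -/
theorem card_conj_congr {G G' : Type*} [Group G] [Group G'] (e : G ≃* G') :
    Nat.card (ConjClasses G) = Nat.card (ConjClasses G') := by
  refine Nat.card_congr
    { toFun := ConjClasses.map e.toMonoidHom
      invFun := ConjClasses.map e.symm.toMonoidHom
      left_inv := ?_
      right_inv := ?_ }
  · intro c
    induction c using Quotient.inductionOn with
    | _ g =>
      change ConjClasses.mk (e.symm (e g)) = ConjClasses.mk g
      rw [MulEquiv.symm_apply_apply]
  · intro c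
    induction c using Quotient.inductionOn with
    | _ g =>
      change ConjClasses.mk (e (e.symm g)) = ConjClasses.mk g
      rw [MulEquiv.apply_symm_apply]

/-- **The class number of a finite solvable group is at most the product of the class numbers of
its Sylow subgroups.** -/
theorem solvable_case (n : ℕ) : ∀ (G : Type u) [Group G] [Finite G] [Group.IsSolvable G],
    Nat.card G = n → ∀ f : ℕ → ℕ,
      (∀ p ∈ (Nat.card G).primeFactors,
        ∃ P : Sylow p G, f p = Nat.card (ConjClasses ↥(P : Subgroup G))) →
      Nat.card (ConjClasses G) ≤ ∏ p ∈ (Nat.card G).primeFactors, f p := by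
  induction n using Nat.strong_induction_on with
  | _ n ih =>
  intro G _ _ _ hn f hf
  rcases (Nat.card G).primeFactors.eq_empty_or_nonempty with h0 | ⟨p, hpG⟩
  · rw [h0, Finset.prod_empty]
    have h1 : Nat.card G = 1 := by
      rcases Nat.primeFactors_eq_empty.1 h0 with h | h
      · exact absurd h Nat.card_pos.ne'
      · exact h
    have hs : Subsingleton G := (Nat.card_eq_one_iff_unique.1 h1).1
    rw [← h1]
    exact Nat.card_le_card_of_surjective (ConjClasses.mk : G → ConjClasses G)
      ConjClasses.mk_surjective
  · have hp : p.Prime := Nat.prime_of_mem_primeFactors hpG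
    have := Fact.mk hp
    obtain ⟨P, hP⟩ := hf p hpG
    obtain ⟨B, hB, k, hk⟩ := exists_complement p hp _ G rfl
    -- `card P = p ^ k`
    have hPc : Nat.card P = p ^ k := by
      rw [Sylow.card_eq_multiplicity, ← hk, Nat.factorization_mul Nat.card_pos.ne'
        (pow_pos hp.pos k).ne']
      have h2 : (Nat.card B).factorization p = 0 :=
        Nat.factorization_eq_zero_of_not_dvd (fun h => by
          have := Nat.dvd_gcd h (dvd_refl p)
          rw [hB] at this
          exact hp.one_lt.ne' (Nat.dvd_one.1 this))
      simp [h2, hp.factorization_self]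
    have hprod : Nat.card P * Nat.card B = Nat.card G := by rw [hPc, mul_comm, hk]
    have hcop : Nat.Coprime (Nat.card P) (Nat.card B) := by
      rw [hPc]; exact (hB.pow_right k).symm
    have hdvd : p ∣ Nat.card G := Nat.dvd_of_mem_primeFactors hpG
    have hk0 : k ≠ 0 := by
      rintro rfl
      rw [pow_zero, mul_one] at hk
      rw [← hk] at hdvd
      have := Nat.dvd_gcd hdvd (dvd_refl p)
      rw [hB] at this
      exact hp.one_lt.ne' (Nat.dvd_one.1 this)
    have hpf : (Nat.card G).primeFactors = insert p (Nat.card B).primeFactors := by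
      rw [← hk, Nat.primeFactors_mul Nat.card_pos.ne' (pow_pos hp.pos k).ne',
        Nat.primeFactors_pow p hk0, hp.primeFactors, Finset.union_comm]
      rfl
    have hpB : p ∉ (Nat.card B).primeFactors := by
      intro h
      have := Nat.dvd_gcd (Nat.dvd_of_mem_primeFactors h) (dvd_refl p)
      rw [hB] at this
      exact hp.one_lt.ne' (Nat.dvd_one.1 this)
    rw [hpf, Finset.prod_insert hpB]
    have hlt : Nat.card B < n := by
      rw [← hn, ← hprod]
      refine lt_mul_of_one_lt_left Nat.card_pos ?_
      rw [hPc]
      exact Nat.one_lt_pow hk0 hp.one_lt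
    refine (card_conj_le_hall G P B hcop hprod).trans (Nat.mul_le_mul hP.ge ?_)
    refine ih _ hlt B rfl f ?_
    intro q hq
    have hqp : q.Prime := Nat.prime_of_mem_primeFactors hq
    have := Fact.mk hqp
    have hqG : q ∈ (Nat.card G).primeFactors := by rw [hpf]; exact Finset.mem_insert_of_mem hq
    obtain ⟨R, hR⟩ := hf q hqG
    let S : Sylow q B := default
    refine ⟨S, ?_⟩
    rw [hR]
    have hfac : (Nat.card B).factorization q = (Nat.card G).factorization q := by
      have hqp' : q ≠ p := by rintro rfl; exact hpB hq
      rw [← hk, Nat.factorization_mul Nat.card_pos.ne' (pow_pos hp.pos k).ne',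
        Nat.factorization_pow]
      simp [hp.factorization, hqp'.symm]
    have hScard : Nat.card ((S : Subgroup B).map B.subtype) =
        q ^ (Nat.card G).factorization q := by
      rw [Subgroup.card_subtype, ← hfac]
      exact Sylow.card_eq_multiplicity S
    let T : Sylow q G := Sylow.ofCard ((S : Subgroup B).map B.subtype) hScard
    have e1 : (R : Subgroup G) ≃* (T : Subgroup G) := Sylow.equiv R T
    have e2 : (S : Subgroup B) ≃* (T : Subgroup G) :=
      (Subgroup.equivMapOfInjective (S : Subgroup B) B.subtype B.subtype_injective)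
    exact card_conj_congr (e1.trans e2.symm)

end Pool.Agent.PyberSolv
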