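import Pool.Agent.PyberSolv.Quo

namespace Pool.Agent.PyberSolv

open MulAction

universe u

theorem orb_of_subsingleton {G X : Type*} [Group G] [MulAction G X] [Subsingleton G] :
    orb G X = Nat.card X := by
  refine (Nat.card_eq_of_bijective (fun x : X => (Quotient.mk _ x : orbitRel.Quotient G X))
    ⟨?_, Quotient.mk_surjective⟩).symm
  intro x y hxy
  obtain ⟨g, hg⟩ : (orbitRel G X) x y := Quotient.exact hxy
  change g • y = x at hg
  rw [Subsingleton.elim g 1, one_smul] at hg
  exact hg.symm

/-- A finite group all of whose elements satisfy `x ^ k = 1` has order coprime to every number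
coprime to `k`. -/
theorem coprime_card_of_pow {G : Type*} [Group G] [Finite G] {k m : ℕ} (h : ∀ x : G, x ^ k = 1)
    (hk : Nat.Coprime k m) : Nat.Coprime (Nat.card G) m := by
  rw [Nat.coprime_iff_gcd_eq_one]
  by_contra hne
  obtain ⟨p, hp, hpd⟩ := Nat.exists_prime_and_dvd hne
  have h1 : p ∣ Nat.card G := hpd.trans (Nat.gcd_dvd_left _ _)
  have h2 : p ∣ m := hpd.trans (Nat.gcd_dvd_right _ _)
  have := Fact.mk hp
  obtain ⟨x, hx⟩ := exists_prime_orderOf_dvd_card' p h1
  have h3 : p ∣ k := by rw [← hx]; exact orderOf_dvd_of_pow_eq_one (h x)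
  have h4 : p ∣ Nat.gcd k m := Nat.dvd_gcd h3 h2
  rw [hk] at h4
  exact hp.one_lt.ne' (Nat.dvd_one.1 h4)

/-- A normal subgroup of order coprime to the index of `B` lies in `B`. -/
theorem le_of_coprime {H : Type*} [Group H] [Finite H] (N B : Subgroup H) [N.Normal] {m : ℕ}
    (hm : m * Nat.card B = Nat.card H) (hco : Nat.Coprime m (Nat.card N)) : N ≤ B := by
  have e1 : Nat.card (N ⊓ B : Subgroup H) * N.relIndex B = Nat.card B := by
    have := Subgroup.relIndex_mul_relIndex (⊥ : Subgroup H) (N ⊓ B) B bot_le inf_le_right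
    rw [Subgroup.relIndex_bot_left, Subgroup.relIndex_bot_left, Subgroup.inf_relIndex_right] at this
    exact this
  have e2 : N.relIndex B = Nat.card (B.map (QuotientGroup.mk' N)) := by
    rw [← Subgroup.relIndex_ker, QuotientGroup.ker_mk']
  obtain ⟨c, hc⟩ := Subgroup.card_subgroup_dvd_card (B.map (QuotientGroup.mk' N))
  obtain ⟨t, ht⟩ : Nat.card (N ⊓ B : Subgroup H) ∣ Nat.card N :=
    Subgroup.card_dvd_of_le inf_le_left
  have e3 : Nat.card (H ⧸ N) * Nat.card N = Nat.card H :=
    (Subgroup.card_eq_card_quotient_mul_card_subgroup N).symm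
  have p1 : 0 < Nat.card (N ⊓ B : Subgroup H) := Nat.card_pos
  have p2 : 0 < Nat.card (B.map (QuotientGroup.mk' N)) := Nat.card_pos
  have e4 : c * t = m := by
    have : (Nat.card (B.map (QuotientGroup.mk' N)) * Nat.card (N ⊓ B : Subgroup H)) * (c * t) =
        (Nat.card (B.map (QuotientGroup.mk' N)) * Nat.card (N ⊓ B : Subgroup H)) * m := by
      calc _ = (Nat.card (B.map (QuotientGroup.mk' N)) * c) *
            (Nat.card (N ⊓ B : Subgroup H) * t) := by ring
        _ = Nat.card (H ⧸ N) * Nat.card N := by rw [← hc, ← ht]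
        _ = m * Nat.card B := by rw [e3, hm]
        _ = m * (Nat.card (N ⊓ B : Subgroup H) * Nat.card (B.map (QuotientGroup.mk' N))) := by
            rw [← e1, e2]
        _ = _ := by ring
    exact Nat.eq_of_mul_eq_mul_left (Nat.mul_pos p2 p1) this
  have h1 : t ∣ m := ⟨c, by rw [← e4]; ring⟩
  have h2 : t ∣ Nat.card N := ⟨_, by rw [ht]; ring⟩
  have h3 : t = 1 := Nat.dvd_one.1 (by
    have := Nat.dvd_gcd h1 h2
    rwa [hco] at this)
  rw [h3, mul_one] at ht
  have h4 : N ⊓ B = N := Subgroup.eq_of_le_of_card_ge inf_le_left ht.le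
  exact inf_eq_left.1 h4

/-- A nontrivial solvable group has a nontrivial commutative normal subgroup. -/
theorem exists_comm_normal (H : Type*) [Group H] [Group.IsSolvable H] [Nontrivial H] :
    ∃ D : Subgroup H, D.Normal ∧ D ≠ ⊥ ∧ ∀ x ∈ D, ∀ y ∈ D, x * y = y * x := by
  classical
  have hex : ∃ n, derivedSeries H n = ⊥ := Group.IsSolvable.solvable
  have h0 : Nat.find hex ≠ 0 := by
    intro h
    have := Nat.find_spec hex
    rw [h, derivedSeries_zero] at this
    exact top_ne_bot this
  obtain ⟨k, hk⟩ := Nat.exists_eq_succ_of_ne_zero h0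
  refine ⟨derivedSeries H k, derivedSeries_normal _ _, Nat.find_min hex (by omega), ?_⟩
  intro x hx y hy
  have h1 := Nat.find_spec hex
  rw [hk, derivedSeries_succ] at h1
  have h2 := Subgroup.commutator_mem_commutator hx hy
  rw [h1, Subgroup.mem_bot] at h2
  exact commutatorElement_eq_one_iff_mul_comm.1 h2

/-- The elements of exponent `k` in a commutative normal subgroup. -/
def expSub {H : Type*} [Group H] (D : Subgroup H) (hD : ∀ x ∈ D, ∀ y ∈ D, x * y = y * x)
    (k : ℕ) : Subgroup H where
  carrier := {x | x ∈ D ∧ x ^ k = 1}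
  one_mem' := ⟨D.one_mem, one_pow _⟩
  mul_mem' := by
    rintro x y ⟨hx, hx'⟩ ⟨hy, hy'⟩
    exact ⟨D.mul_mem hx hy, by rw [(show Commute x y from hD x hx y hy).mul_pow, hx', hy', one_mul]⟩
  inv_mem' := by
    rintro x ⟨hx, hx'⟩
    exact ⟨D.inv_mem hx, by rw [inv_pow, hx', inv_one]⟩

theorem expSub_normal {H : Type*} [Group H] (D : Subgroup H) [D.Normal]
    (hD : ∀ x ∈ D, ∀ y ∈ D, x * y = y * x) (k : ℕ) : (expSub D hD k).Normal := by
  constructor
  rintro x ⟨hx, hx'⟩ g
  exact ⟨‹D.Normal›.conj_mem _ hx g, by rw [conj_pow, hx', mul_one, mul_inv_cancel]⟩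

theorem card_part_le {H X : Type u} [Group H] [MulAction H X] [Subsingleton H]
    (P : Over H X) (B : Subgroup H) : orb B (part P B) = Nat.card X := by
  rw [orb_of_subsingleton]
  refine Nat.card_congr (Equiv.subtypeUnivEquiv ?_)
  intro x
  change P.q x ∈ B
  rw [Subsingleton.elim (P.q x) 1]
  exact B.one_mem

/-- Swapping the two factors. -/
theorem orb_pairs_swap {H X Y : Type u} [Group H] [MulAction H X] [MulAction H Y] [Finite X]
    [Finite Y] (P : Over H X) (Q : Over H Y) : orb H (pairs P Q) ≤ orb H (pairs Q P) := by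
  have : Finite (pairs Q P) := Subtype.finite
  refine orb_le_of_inj (fun t => ⟨(t.1.2, t.1.1), t.2.2, t.2.1⟩) ?_
  rintro ⟨⟨x, y⟩, h⟩ ⟨⟨x', y'⟩, h'⟩ ⟨g, hg⟩
  refine ⟨g, ?_⟩
  apply Subtype.ext
  apply Prod.ext
  · exact congrArg (fun t => t.1.2) hg
  · exact congrArg (fun t => t.1.1) hg

/-- The image in `H ⧸ N` of a Hall pair, when `N ≤ B`. -/
theorem hall_quo {H : Type*} [Group H] [Finite H] (N A B : Subgroup H) [N.Normal] (hNB : N ≤ B)
    (hc : Nat.Coprime (Nat.card A) (Nat.card B)) (hm : Nat.card A * Nat.card B = Nat.card H) :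
    Nat.card (A.map (QuotientGroup.mk' N)) = Nat.card A ∧
    Nat.card A * Nat.card (B.map (QuotientGroup.mk' N)) = Nat.card (H ⧸ N) := by
  have hNA : Nat.Coprime (Nat.card A) (Nat.card N) :=
    Nat.Coprime.coprime_dvd_right (Subgroup.card_dvd_of_le hNB) hc
  constructor
  · rw [← Subgroup.relIndex_ker, QuotientGroup.ker_mk']
    have e1 : Nat.card (N ⊓ A : Subgroup H) * N.relIndex A = Nat.card A := by
      have := Subgroup.relIndex_mul_relIndex (⊥ : Subgroup H) (N ⊓ A) A bot_le inf_le_right
      rw [Subgroup.relIndex_bot_left, Subgroup.relIndex_bot_left,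
        Subgroup.inf_relIndex_right] at this
      exact this
    have h1 : Nat.card (N ⊓ A : Subgroup H) = 1 := by
      apply Nat.dvd_one.1
      have h2 : Nat.card (N ⊓ A : Subgroup H) ∣ Nat.card A := Subgroup.card_dvd_of_le inf_le_right
      have h3 : Nat.card (N ⊓ A : Subgroup H) ∣ Nat.card N := Subgroup.card_dvd_of_le inf_le_left
      have := Nat.dvd_gcd h2 h3
      rwa [hNA] at this
    rw [h1, one_mul] at e1
    exact e1
  · have h1 : (B.map (QuotientGroup.mk' N)).index = B.index :=
      Subgroup.index_map_eq B (QuotientGroup.mk'_surjective N) (by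
        rw [QuotientGroup.ker_mk']; exact hNB)
    have h2 := (B.map (QuotientGroup.mk' N)).card_mul_index
    have h3 := B.card_mul_index
    have h4 : B.index = Nat.card A := by
      have p : 0 < Nat.card B := Nat.card_pos
      exact Nat.eq_of_mul_eq_mul_left p (by rw [h3, ← hm, mul_comm])
    rw [h1, h4] at h2
    rw [mul_comm]
    exact h2

/-- **Main inequality.** -/
theorem core (n : ℕ) : ∀ (H : Type u) [Group H] [Finite H] [Group.IsSolvable H], Nat.card H = n →
    ∀ A B : Subgroup H, Nat.Coprime (Nat.card A) (Nat.card B) →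
    Nat.card A * Nat.card B = Nat.card H →
    ∀ (X Y : Type u) [Finite X] [Finite Y] [MulAction H X] [MulAction H Y] (P : Over H X)
      (Q : Over H Y), (∀ x, Nat.Coprime (orderOf (P.q x)) (Nat.card A)) →
      (∀ y, Nat.Coprime (orderOf (Q.q y)) (Nat.card B)) →
      orb H (pairs P Q) ≤ orb B (part P B) * orb A (part Q A) := by
  induction n using Nat.strong_induction_on with
  | _ n ih =>
  intro H _ _ _ hn A B hco hm X Y _ _ _ _ P Q hP hQ
  rcases subsingleton_or_nontrivial H with hs | hnt
  · rw [card_part_le, card_part_le, orb_of_subsingleton, ← Nat.card_prod]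
    exact Nat.card_le_card_of_injective (fun t : pairs P Q => t.1) Subtype.val_injective
  · -- the reduction, for a normal subgroup inside `B`
    have red : ∀ (A B : Subgroup H), Nat.Coprime (Nat.card A) (Nat.card B) →
        Nat.card A * Nat.card B = Nat.card H →
        ∀ (X Y : Type u) [Finite X] [Finite Y] [MulAction H X] [MulAction H Y] (P : Over H X)
          (Q : Over H Y), (∀ x, Nat.Coprime (orderOf (P.q x)) (Nat.card A)) →
        (∀ y, Nat.Coprime (orderOf (Q.q y)) (Nat.card B)) →
        ∀ N : Subgroup H, N.Normal → N ≠ ⊥ → (∀ x ∈ N, ∀ y ∈ N, x * y = y * x) → N ≤ B →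
        orb H (pairs P Q) ≤ orb B (part P B) * orb A (part Q A) := by
      intro A B hco hm X Y _ _ _ _ P Q hP hQ N hNn hNb hN hNB
      have hNA : Nat.Coprime (Nat.card A) (Nat.card N) :=
        Nat.Coprime.coprime_dvd_right (Subgroup.card_dvd_of_le hNB) hco
      have hQN : ∀ y, Nat.Coprime (orderOf (Q.q y)) (Nat.card N) := fun y =>
        Nat.Coprime.coprime_dvd_right (Subgroup.card_dvd_of_le hNB) (hQ y)
      refine step P Q N hN A B hNB hNA hQN ?_
      obtain ⟨h1, h2⟩ := hall_quo N A B hNB hco hm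
      have : Finite (Q.Sharp N hN) := finite_sharp Q N hN
      have hlt : Nat.card (H ⧸ N) < n := by
        rw [← hn, Subgroup.card_eq_card_quotient_mul_card_subgroup N]
        have h3 : 1 < Nat.card N := by
          by_contra hle
          exact hNb (Subgroup.card_eq_one.1 (le_antisymm (not_lt.1 hle) Nat.card_pos))
        exact lt_mul_of_one_lt_right Nat.card_pos h3
      refine ih _ hlt (H ⧸ N) rfl (A.map (QuotientGroup.mk' N)) (B.map (QuotientGroup.mk' N))
        ?_ ?_ _ _ _ _ ?_ ?_
      · rw [h1]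
        exact Nat.Coprime.coprime_dvd_right (Subgroup.card_map_dvd B (QuotientGroup.mk' N)) hco
      · rw [h1, h2]
      · intro z
        obtain ⟨x, rfl⟩ := QX.surj N z
        rw [h1, Over.quo_mk]
        exact Nat.Coprime.coprime_dvd_left (orderOf_map_dvd (QuotientGroup.mk' N) (P.q x)) (hP x)
      · intro z
        obtain ⟨y, rfl⟩ := QX.surj N z
        obtain ⟨t, rfl⟩ := Q.cls_surj hN y
        rw [Over.quo_mk, Over.sharp_q_cls]
        exact Nat.Coprime.coprime_dvd_right (Subgroup.card_map_dvd B (QuotientGroup.mk' N))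
          (Nat.Coprime.coprime_dvd_left (orderOf_map_dvd (QuotientGroup.mk' N) (Q.q t.y))
            (hQ t.y))
    obtain ⟨D, hDn, hDb, hD⟩ := exists_comm_normal H
    by_cases h1 : expSub D hD (Nat.card B) = ⊥
    · -- `D` has exponent dividing `card A`
      have hexp : ∀ d ∈ D, d ^ Nat.card A = 1 := by
        intro d hd
        have h2 : d ^ Nat.card A ∈ expSub D hD (Nat.card B) := by
          refine ⟨D.pow_mem hd _, ?_⟩
          rw [← pow_mul, hm]
          exact pow_card_eq_one'
        rw [h1, Subgroup.mem_bot] at h2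
        exact h2
      have hDc : Nat.Coprime (Nat.card D) (Nat.card B) :=
        coprime_card_of_pow (G := D) (fun x => Subtype.ext (hexp x.1 x.2)) hco
      have hDA : D ≤ A := le_of_coprime D A (m := Nat.card B) (by rw [mul_comm, hm]) hDc.symm
      calc orb H (pairs P Q) ≤ orb H (pairs Q P) := orb_pairs_swap P Q
        _ ≤ orb A (part Q A) * orb B (part P B) :=
            red B A hco.symm (by rw [mul_comm, hm]) Y X Q P hQ hP D hDn hDb hD hDA
        _ = _ := mul_comm _ _
    · have hn1 : (expSub D hD (Nat.card B)).Normal := expSub_normal D hD _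
      have hc1 : Nat.Coprime (Nat.card (expSub D hD (Nat.card B))) (Nat.card A) :=
        coprime_card_of_pow (G := expSub D hD (Nat.card B)) (fun x => Subtype.ext x.2.2) hco.symm
      exact red A B hco hm X Y P Q hP hQ _ hn1 h1
        (fun x hx y hy => hD x hx.1 y hy.1)
        (le_of_coprime _ B (m := Nat.card A) hm hc1.symm)

end Pool.Agent.PyberSolv
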