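import Pool.Agent.PyberSolv.Core

namespace Pool.Agent.PyberSolv

open MulAction

universe u

/-- Elements of order coprime to `m`. -/
def CE (H : Type u) [Group H] (m : ℕ) : Type u := {x : H // Nat.Coprime (orderOf x) m}

theorem orderOf_conj' {H : Type u} [Group H] (h x : H) : orderOf (h * x * h⁻¹) = orderOf x := by
  have := MulEquiv.orderOf_eq (MulAut.conj h) x
  rwa [MulAut.conj_apply] at this

instance (H : Type u) [Group H] (m : ℕ) : MulAction H (CE H m) where
  smul h x := ⟨h * x.1 * h⁻¹, by rw [orderOf_conj']; exact x.2⟩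
  one_smul x := Subtype.ext (by change 1 * x.1 * 1⁻¹ = x.1; simp)
  mul_smul g h x := Subtype.ext (by
    change g * h * x.1 * (g * h)⁻¹ = g * (h * x.1 * h⁻¹) * g⁻¹
    group)

theorem CE.smul_val {H : Type u} [Group H] {m : ℕ} (h : H) (x : CE H m) :
    (h • x).1 = h * x.1 * h⁻¹ := rfl

instance (H : Type u) [Group H] [Finite H] (m : ℕ) : Finite (CE H m) := Subtype.finite

/-- The tautological structure over `H`. -/
def ceOver (H : Type u) [Group H] (m : ℕ) : Over H (CE H m) where
  q x := x.1
  equi _ _ := rfl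
  fix x := Subtype.ext (by rw [CE.smul_val, mul_assoc, mul_inv_cancel, mul_one])

/-- Orbits on the part over `A` inject into the conjugacy classes of `A`. -/
theorem orb_part_ce_le {H : Type u} [Group H] [Finite H] (m : ℕ) (A : Subgroup H) :
    orb A (part (ceOver H m) A) ≤ Nat.card (ConjClasses A) := by
  refine Nat.card_le_card_of_injective
    (fun o : orbitRel.Quotient A (part (ceOver H m) A) =>
      ConjClasses.mk (⟨o.out.1.1, o.out.2⟩ : A)) ?_
  intro o o' h
  rw [ConjClasses.mk_eq_mk_iff_isConj, isConj_iff] at h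
  obtain ⟨c, hc⟩ := h
  rw [← Quotient.out_eq o, ← Quotient.out_eq o']
  refine Quotient.sound (s := orbitRel A (part (ceOver H m) A))
    ((orbitRel A (part (ceOver H m) A)).symm ⟨c, ?_⟩)
  apply Subtype.ext
  apply Subtype.ext
  have h2 : c.1 * o.out.1.1 * c.1⁻¹ = o'.out.1.1 := congrArg Subtype.val hc
  exact h2

/-- The class number is at most the number of orbits on commuting pairs. -/
theorem card_conj_le {H : Type u} [Group H] [Finite H] (a b : ℕ) (hco : Nat.Coprime a b)
    (hm : a * b = Nat.card H) :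
    Nat.card (ConjClasses H) ≤ orb H (pairs (ceOver H a) (ceOver H b)) := by
  classical
  obtain ⟨e1, h1a, h1b⟩ := Nat.chineseRemainder hco 0 1
  obtain ⟨e2, h2a, h2b⟩ := Nat.chineseRemainder hco 1 0
  have hsum : ∀ g : H, g ^ e1 * g ^ e2 = g := by
    intro g
    have h3 : e1 + e2 ≡ 1 [MOD a * b] := by
      rw [← Nat.modEq_and_modEq_iff_modEq_mul hco]
      exact ⟨h1a.add h2a, h1b.add h2b⟩
    rw [hm] at h3
    rw [← pow_add]
    conv_rhs => rw [← pow_one g]
    exact (pow_eq_pow_iff_modEq).2 (h3.of_dvd (orderOf_dvd_natCard g))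
  have ho1 : ∀ g : H, Nat.Coprime (orderOf (g ^ e1)) a := by
    intro g
    have h4 : (g ^ e1) ^ b = 1 := by
      rw [← pow_mul]
      apply orderOf_dvd_iff_pow_eq_one.1
      refine (orderOf_dvd_natCard g).trans ?_
      rw [← hm]
      exact Nat.mul_dvd_mul_right ((Nat.modEq_zero_iff_dvd).1 h1a) b
    exact Nat.Coprime.coprime_dvd_left (orderOf_dvd_of_pow_eq_one h4) hco.symm
  have ho2 : ∀ g : H, Nat.Coprime (orderOf (g ^ e2)) b := by
    intro g
    have h4 : (g ^ e2) ^ a = 1 := by
      rw [← pow_mul]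
      apply orderOf_dvd_iff_pow_eq_one.1
      refine (orderOf_dvd_natCard g).trans ?_
      rw [← hm, mul_comm]
      exact Nat.mul_dvd_mul_right ((Nat.modEq_zero_iff_dvd).1 h2b) a
    exact Nat.Coprime.coprime_dvd_left (orderOf_dvd_of_pow_eq_one h4) hco
  have hcomm : ∀ g : H, Commute (g ^ e2) (g ^ e1) := fun g =>
    (Commute.refl g).pow_pow e2 e1
  let F : H → pairs (ceOver H a) (ceOver H b) := fun g =>
    ⟨(⟨g ^ e1, ho1 g⟩, ⟨g ^ e2, ho2 g⟩), by
      constructor
      · apply Subtype.ext
        change g ^ e2 * g ^ e1 * (g ^ e2)⁻¹ = g ^ e1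
        rw [hcomm g, mul_assoc, mul_inv_cancel, mul_one]
      · apply Subtype.ext
        change g ^ e1 * g ^ e2 * (g ^ e1)⁻¹ = g ^ e2
        rw [← hcomm g, mul_assoc, mul_inv_cancel, mul_one]⟩
  have : Finite (pairs (ceOver H a) (ceOver H b)) := Subtype.finite
  have : Finite (orbitRel.Quotient H (pairs (ceOver H a) (ceOver H b))) := Quotient.finite _
  refine Nat.card_le_card_of_injective
    (fun c : ConjClasses H => (Quotient.mk _ (F (Quotient.out c)) :
      orbitRel.Quotient H (pairs (ceOver H a) (ceOver H b)))) ?_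
  intro c c' hcc
  obtain ⟨h, hh⟩ : (orbitRel H (pairs (ceOver H a) (ceOver H b))) (F (Quotient.out c))
      (F (Quotient.out c')) := Quotient.exact hcc
  change h • F (Quotient.out c') = F (Quotient.out c) at hh
  have e1' : h * (Quotient.out c') ^ e1 * h⁻¹ = (Quotient.out c) ^ e1 :=
    congrArg (fun t => t.1.1.1) hh
  have e2' : h * (Quotient.out c') ^ e2 * h⁻¹ = (Quotient.out c) ^ e2 :=
    congrArg (fun t => t.1.2.1) hh
  have e3 : h * (Quotient.out c') * h⁻¹ = Quotient.out c := by
    calc h * (Quotient.out c') * h⁻¹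
        = h * ((Quotient.out c') ^ e1 * (Quotient.out c') ^ e2) * h⁻¹ := by rw [hsum]
      _ = (h * (Quotient.out c') ^ e1 * h⁻¹) * (h * (Quotient.out c') ^ e2 * h⁻¹) := by group
      _ = (Quotient.out c) ^ e1 * (Quotient.out c) ^ e2 := by rw [e1', e2']
      _ = _ := hsum _
  have e4 : IsConj (Quotient.out c') (Quotient.out c) := isConj_iff.2 ⟨h, e3⟩
  rw [← Quotient.out_eq c, ← Quotient.out_eq c']
  exact Quotient.sound e4.symm

/-- **Class numbers and Hall subgroups of solvable groups.** -/
theorem card_conj_le_hall (H : Type u) [Group H] [Finite H] [Group.IsSolvable H]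
    (A B : Subgroup H) (hco : Nat.Coprime (Nat.card A) (Nat.card B))
    (hm : Nat.card A * Nat.card B = Nat.card H) :
    Nat.card (ConjClasses H) ≤ Nat.card (ConjClasses A) * Nat.card (ConjClasses B) := by
  calc Nat.card (ConjClasses H)
      ≤ orb H (pairs (ceOver H (Nat.card A)) (ceOver H (Nat.card B))) :=
        card_conj_le _ _ hco hm
    _ ≤ orb B (part (ceOver H (Nat.card A)) B) * orb A (part (ceOver H (Nat.card B)) A) :=
        core _ H rfl A B hco hm _ _ _ _ (fun x => x.2) (fun y => y.2)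
    _ ≤ Nat.card (ConjClasses B) * Nat.card (ConjClasses A) :=
        Nat.mul_le_mul (orb_part_ce_le _ B) (orb_part_ce_le _ A)
    _ = _ := mul_comm _ _

end Pool.Agent.PyberSolv
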