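import Pool.Agent.PyberSolv.Compare

namespace Pool.Agent.PyberSolv

open MulAction

universe u

section

variable {H : Type u} [Group H] (N : Subgroup H) [N.Normal]

/-- The set of `N`-orbits. -/
def QX (X : Type u) [MulAction H X] : Type u := orbitRel.Quotient N X

variable {X : Type u} [MulAction H X]

/-- The orbit of a point. -/
def QX.mk (x : X) : QX N X := Quotient.mk (orbitRel N X) x

omit [N.Normal] in
theorem QX.surj (z : QX N X) : ∃ x : X, QX.mk N x = z := Quotient.exists_rep z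

omit [N.Normal] in
theorem QX.eq {x y : X} : QX.mk N x = QX.mk N y ↔ ∃ n ∈ N, n • y = x := by
  constructor
  · intro h
    obtain ⟨n, hn⟩ : (orbitRel N X) x y := Quotient.exact h
    exact ⟨n.1, n.2, hn⟩
  · rintro ⟨n, hn, h⟩
    exact Quotient.sound (s := orbitRel N X) ⟨⟨n, hn⟩, h⟩

instance QX.instAction : MulAction (H ⧸ N) (QX N X) where
  smul := Quotient.map₂ (sa := QuotientGroup.leftRel N) (sb := orbitRel N X)
    (sc := orbitRel N X) (fun h x => h • x) (by
      intro h k hk x y hxy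
      replace hk : h⁻¹ * k ∈ N := QuotientGroup.leftRel_apply.1 hk
      obtain ⟨n, hn⟩ := hxy
      change n.1 • y = x at hn
      have hm : h * n.1 * (h⁻¹ * k)⁻¹ * h⁻¹ ∈ N := by
        have h1 : h * (n.1 * (h⁻¹ * k)⁻¹) * h⁻¹ ∈ N :=
          ‹N.Normal›.conj_mem _ (N.mul_mem n.2 (N.inv_mem hk)) h
        have : h * n.1 * (h⁻¹ * k)⁻¹ * h⁻¹ = h * (n.1 * (h⁻¹ * k)⁻¹) * h⁻¹ := by group
        rw [this]; exact h1
      refine ⟨⟨_, hm⟩, ?_⟩
      change (h * n.1 * (h⁻¹ * k)⁻¹ * h⁻¹) • k • y = h • x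
      rw [← hn, smul_smul, smul_smul]
      congr 1
      group)
  one_smul z := by
    obtain ⟨x, rfl⟩ := QX.surj N z
    change QX.mk N ((1 : H) • x) = QX.mk N x
    rw [one_smul]
  mul_smul g g' z := by
    obtain ⟨x, rfl⟩ := QX.surj N z
    obtain ⟨h, rfl⟩ := QuotientGroup.mk_surjective g
    obtain ⟨h', rfl⟩ := QuotientGroup.mk_surjective g'
    change QX.mk N ((h * h') • x) = QX.mk N (h • h' • x)
    rw [mul_smul]

theorem QX.smul_mk (h : H) (x : X) : (h : H ⧸ N) • QX.mk N x = QX.mk N (h • x) := rfl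

/-- The quotient of an `H`-set over `H`. -/
def Over.quo (O : Over H X) : Over (H ⧸ N) (QX N X) where
  q := Quotient.lift (fun x => ((O.q x : H) : H ⧸ N)) (by
    rintro x y ⟨n, hn⟩
    change n.1 • y = x at hn
    rw [← hn, O.equi]
    have : ((n.1 : H) : H ⧸ N) = 1 := (QuotientGroup.eq_one_iff _).2 n.2
    simp [this])
  equi g z := by
    obtain ⟨x, rfl⟩ := QX.surj N z
    obtain ⟨h, rfl⟩ := QuotientGroup.mk_surjective g
    change ((O.q (h • x) : H) : H ⧸ N) = (h : H ⧸ N) * ((O.q x : H) : H ⧸ N) * (h : H ⧸ N)⁻¹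
    rw [O.equi]
    simp
  fix z := by
    obtain ⟨x, rfl⟩ := QX.surj N z
    change QX.mk N (O.q x • x) = QX.mk N x
    rw [O.fix]

@[simp] theorem Over.quo_mk (O : Over H X) (x : X) :
    (O.quo N).q (QX.mk N x) = ((O.q x : H) : H ⧸ N) := rfl

instance [Finite X] : Finite (QX N X) := Quotient.finite _

end

/-- Coset form of the averaging lemma. -/
theorem coset_fix {H : Type u} [Group H] (M : Subgroup H) (hM : ∀ x ∈ M, ∀ y ∈ M, x * y = y * x)
    (a k : H) (hnorm : ∀ m ∈ M, a * m * a⁻¹ ∈ M) (hc : Nat.Coprime (orderOf a) (Nat.card M))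
    (hk : a * k⁻¹ * a⁻¹ * k ∈ M) : ∃ m ∈ M, (k * m) * a = a * (k * m) := by
  let _ : CommGroup M :=
    { (inferInstance : Group M) with
      mul_comm := fun u v => Subtype.ext (hM u.1 u.2 v.1 v.2) }
  let σ : M →* M :=
    { toFun := fun m => ⟨a * m.1 * a⁻¹, hnorm m.1 m.2⟩
      map_one' := by apply Subtype.ext; simp
      map_mul' := fun u v => by
        apply Subtype.ext
        simp only [Subgroup.coe_mul]
        group }
  have hiter : ∀ (j : ℕ) (s : H), (fun s : H => a * s * a⁻¹)^[j] s = a ^ j * s * (a ^ j)⁻¹ := by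
    intro j s
    induction j with
    | zero => simp
    | succ j ih =>
      rw [Function.iterate_succ_apply', ih, pow_succ']
      group
  obtain ⟨m, hm⟩ := torsor_fix (M := M) (S := H) σ (fun s => a * s * a⁻¹)
    (by
      intro m s
      change a * (m.1 * s) * a⁻¹ = (a * m.1 * a⁻¹) * (a * s * a⁻¹)
      group) (orderOf a) hc k⁻¹
    (by rw [hiter, pow_orderOf_eq_one]; group) ⟨a * k⁻¹ * a⁻¹ * k, hk⟩
    (by
      change a * k⁻¹ * a⁻¹ = a * k⁻¹ * a⁻¹ * k * k⁻¹
      group)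
  have hm' : a * (m.1 * k⁻¹) * a⁻¹ = m.1 * k⁻¹ := hm
  refine ⟨m.1⁻¹, M.inv_mem m.2, ?_⟩
  have h1 : k * m.1⁻¹ = (m.1 * k⁻¹)⁻¹ := by group
  have h2 : Commute a (m.1 * k⁻¹) := by
    rw [mul_inv_eq_iff_eq_mul] at hm'
    exact hm'
  rw [h1]
  exact (h2.inv_right.eq).symm

section

variable {H X Y : Type u} [Group H] [MulAction H X] [MulAction H Y] (P : Over H X)
    (Z : Over H Y) (N : Subgroup H) [N.Normal] [Finite X] [Finite Y]

/-- Passing to the quotient by `N` when `N` acts trivially along the fibres of the second set. -/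
theorem orb_pairs_quo (hN : ∀ x ∈ N, ∀ y ∈ N, x * y = y * x)
    (htriv : ∀ n ∈ N, ∀ z : Y, n * Z.q z = Z.q z * n → n • z = z)
    (hco : ∀ z : Y, Nat.Coprime (orderOf (Z.q z)) (Nat.card N)) :
    orb H (pairs P Z) ≤ orb (H ⧸ N) (pairs (P.quo N) (Z.quo N)) := by
  have : Finite (pairs (P.quo N) (Z.quo N)) := Subtype.finite
  refine orb_le_of_inj (fun t => ⟨(QX.mk N t.1.1, QX.mk N t.1.2), ?_, ?_⟩) ?_
  · change QX.mk N (Z.q t.1.2 • t.1.1) = QX.mk N t.1.1
    rw [t.2.1]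
  · change QX.mk N (P.q t.1.1 • t.1.2) = QX.mk N t.1.2
    rw [t.2.2]
  · rintro ⟨⟨x, z⟩, hxz⟩ ⟨⟨x', z'⟩, hxz'⟩ ⟨g, hg⟩
    obtain ⟨h, rfl⟩ := QuotientGroup.mk_surjective g
    have h1 : QX.mk N (h • x) = QX.mk N x' := congrArg (fun t => t.1.1) hg
    have h2 : QX.mk N (h • z) = QX.mk N z' := congrArg (fun t => t.1.2) hg
    rw [QX.eq] at h1 h2
    obtain ⟨n, hn, h1⟩ := h1
    obtain ⟨m, hm, h2⟩ := h2
    -- `x₁ = m⁻¹ h x`, `z' = m⁻¹ h z`
    have e1 : z' = (m⁻¹ * h) • z := by rw [mul_smul, ← h2, inv_smul_smul]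
    set x1 := (m⁻¹ * h) • x with hx1
    have e2 : x' = (n⁻¹ * m) • x1 := by
      rw [hx1, smul_smul]
      have : n⁻¹ * m * (m⁻¹ * h) = n⁻¹ * h := by group
      rw [this, mul_smul, ← h1, inv_smul_smul]
    have hpair1 : ((x1, z') : X × Y) ∈ pairs P Z := by
      have := (pairs P Z).smul_mem (m⁻¹ * h) hxz
      rw [Prod.smul_mk, ← e1] at this
      exact this
    have f1 : Z.q z' • x1 = x1 := hpair1.1
    have f2 : Z.q z' • x' = x' := hxz'.1
    set a := Z.q z' with ha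
    set k := n⁻¹ * m with hk
    have hkN : k ∈ N := N.mul_mem (N.inv_mem hn) hm
    let M : Subgroup H := N ⊓ stabilizer H x1
    have hMmem : ∀ y, y ∈ M ↔ y ∈ N ∧ y • x1 = x1 := fun y => Iff.rfl
    have hkk : a * k⁻¹ * a⁻¹ * k ∈ M := by
      rw [hMmem]
      refine ⟨N.mul_mem (‹N.Normal›.conj_mem _ (N.inv_mem hkN) a) hkN, ?_⟩
      rw [mul_smul, mul_smul, mul_smul, ← e2, inv_smul_eq_iff.2 f2.symm]
      rw [e2, inv_smul_smul, f1]
    obtain ⟨s, hs, hsa⟩ := coset_fix M (fun u hu v hv => hN u hu.1 v hv.1) a k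
      (by
        intro y hy
        rw [hMmem] at hy ⊢
        refine ⟨‹N.Normal›.conj_mem _ hy.1 a, ?_⟩
        rw [mul_smul, mul_smul, inv_smul_eq_iff.2 f1.symm, hy.2, f1])
      (Nat.Coprime.coprime_dvd_right (Subgroup.card_dvd_of_le inf_le_left) (hco z')) hkk
    rw [hMmem] at hs
    refine ⟨k * s * (m⁻¹ * h), ?_⟩
    apply Subtype.ext
    apply Prod.ext
    · change (k * s * (m⁻¹ * h)) • x = x'
      rw [mul_smul, ← hx1, mul_smul, hs.2, e2]
    · change (k * s * (m⁻¹ * h)) • z = z'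
      rw [mul_smul, ← e1]
      exact htriv _ (N.mul_mem hkN hs.1) z' hsa

/-- The part over a subgroup containing `N`. -/
theorem orb_part_quo_big (B : Subgroup H) (hB : N ≤ B) :
    orb (B.map (QuotientGroup.mk' N)) (part (P.quo N) (B.map (QuotientGroup.mk' N))) ≤
      orb B (part P B) := by
  have : Finite (part P B) := Subtype.finite
  refine orb_le_of_surj
    (fun b => (⟨QuotientGroup.mk' N b.1, Subgroup.mem_map_of_mem _ b.2⟩ :
      B.map (QuotientGroup.mk' N)))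
    (fun t => ⟨QX.mk N t.1, ?_⟩) ?_ ?_
  · exact Subgroup.mem_map_of_mem (QuotientGroup.mk' N) t.2
  · intro g x
    rfl
  · rintro ⟨z, hz⟩
    obtain ⟨x, rfl⟩ := QX.surj N z
    obtain ⟨b, hb, hb'⟩ := hz
    have h1 : P.q x ∈ B := by
      have h2 : b⁻¹ * P.q x ∈ N := by
        rw [← QuotientGroup.eq]; exact hb'
      have : P.q x = b * (b⁻¹ * P.q x) := by group
      rw [this]
      exact B.mul_mem hb (hB h2)
    exact ⟨⟨x, h1⟩, rfl⟩

/-- The part over a subgroup of coprime order. -/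
theorem orb_part_quo_coprime (hN : ∀ x ∈ N, ∀ y ∈ N, x * y = y * x) (A : Subgroup H)
    (hco : ∀ z : Y, Nat.Coprime (orderOf (Z.q z)) (Nat.card N)) :
    orb (A.map (QuotientGroup.mk' N)) (part (Z.quo N) (A.map (QuotientGroup.mk' N))) ≤
      orb A (part Z A) := by
  have : Finite (part Z A) := Subtype.finite
  refine orb_le_of_surj
    (fun b => (⟨QuotientGroup.mk' N b.1, Subgroup.mem_map_of_mem _ b.2⟩ :
      A.map (QuotientGroup.mk' N)))
    (fun t => ⟨QX.mk N t.1, ?_⟩) ?_ ?_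
  · exact Subgroup.mem_map_of_mem (QuotientGroup.mk' N) t.2
  · intro g x
    rfl
  · rintro ⟨w, hw⟩
    obtain ⟨z, rfl⟩ := QX.surj N w
    obtain ⟨a, ha, ha'⟩ := hw
    set c := Z.q z with hcdef
    have h2 : a⁻¹ * c ∈ N := by
      rw [← QuotientGroup.eq]; exact ha'
    let _ : CommGroup N :=
      { (inferInstance : Group N) with
        mul_comm := fun u v => Subtype.ext (hN u.1 u.2 v.1 v.2) }
    let σ : N →* N :=
      { toFun := fun m => ⟨c * m.1 * c⁻¹, ‹N.Normal›.conj_mem _ m.2 c⟩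
        map_one' := by apply Subtype.ext; simp
        map_mul' := fun u v => by
          apply Subtype.ext
          simp only [Subgroup.coe_mul]
          group }
    have hiter : ∀ (k : ℕ) (s : H ⧸ A), (fun s : H ⧸ A => c • s)^[k] s = c ^ k • s := by
      intro k s
      induction k with
      | zero => simp
      | succ k ih => rw [Function.iterate_succ_apply', ih, pow_succ', mul_smul]
    have hn' : a * (a⁻¹ * c) * a⁻¹ ∈ N := ‹N.Normal›.conj_mem _ h2 a
    obtain ⟨m, hm⟩ := torsor_fix (M := N) (S := H ⧸ A) σ (fun s => c • s)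
      (by
        intro m s
        change c • (m.1 • s) = (c * m.1 * c⁻¹) • c • s
        rw [smul_smul, smul_smul]
        congr 1
        group) (orderOf c) (hco z) ((1 : H) : H ⧸ A)
      (by rw [hiter, pow_orderOf_eq_one, one_smul]) ⟨_, hn'⟩
      (by
        change ((c * 1 : H) : H ⧸ A) = ((a * (a⁻¹ * c) * a⁻¹ * 1 : H) : H ⧸ A)
        rw [QuotientGroup.eq]
        have : (c * 1)⁻¹ * (a * (a⁻¹ * c) * a⁻¹ * 1) = a⁻¹ := by group
        rw [this]
        exact A.inv_mem ha)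
    have hm' : ((c * (m.1 * 1) : H) : H ⧸ A) = ((m.1 * 1 : H) : H ⧸ A) := hm
    rw [eq_comm, QuotientGroup.eq] at hm'
    have h3 : Z.q (m.1⁻¹ • z) ∈ A := by
      rw [Z.equi, ← hcdef]
      have : m.1⁻¹ * c * m.1⁻¹⁻¹ = (m.1 * 1)⁻¹ * (c * (m.1 * 1)) := by group
      rw [this]; exact hm'
    refine ⟨⟨m.1⁻¹ • z, h3⟩, ?_⟩
    apply Subtype.ext
    change QX.mk N (m.1⁻¹ • z) = QX.mk N z
    rw [QX.eq]
    exact ⟨m.1⁻¹, N.inv_mem m.2, rfl⟩

/-- The inductive step. -/
theorem step [Finite H] (hN : ∀ x ∈ N, ∀ y ∈ N, x * y = y * x) (A B : Subgroup H) (hB : N ≤ B)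
    (hA : Nat.Coprime (Nat.card A) (Nat.card N))
    (hco : ∀ z : Y, Nat.Coprime (orderOf (Z.q z)) (Nat.card N))
    (IH : orb (H ⧸ N) (pairs (P.quo N) ((Z.sharp (N := N) hN).quo N)) ≤
      orb (B.map (QuotientGroup.mk' N)) (part (P.quo N) (B.map (QuotientGroup.mk' N))) *
      orb (A.map (QuotientGroup.mk' N))
        (part ((Z.sharp (N := N) hN).quo N) (A.map (QuotientGroup.mk' N)))) :
    orb H (pairs P Z) ≤ orb B (part P B) * orb A (part Z A) := by
  have : Finite (Z.Sharp N hN) := finite_sharp Z N hN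
  have hco' : ∀ z : Z.Sharp N hN,
      Nat.Coprime (orderOf ((Z.sharp (N := N) hN).q z)) (Nat.card N) := by
    intro z
    obtain ⟨t, rfl⟩ := Z.cls_surj hN z
    exact hco t.y
  calc orb H (pairs P Z) ≤ orb H (pairs P (Z.sharp (N := N) hN)) := orb_pairs_le P Z N hN
    _ ≤ orb (H ⧸ N) (pairs (P.quo N) ((Z.sharp (N := N) hN).quo N)) :=
        orb_pairs_quo P _ N hN (fun n hn z hz => Z.sharp_triv hN n hn z hz) hco'
    _ ≤ _ := IH
    _ ≤ orb B (part P B) * orb A (part (Z.sharp (N := N) hN) A) :=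
        Nat.mul_le_mul (orb_part_quo_big P N B hB) (orb_part_quo_coprime _ N hN A hco')
    _ ≤ orb B (part P B) * orb A (part Z A) :=
        Nat.mul_le_mul_left _ (orb_part_le Z N hN A hA)

end

end Pool.Agent.PyberSolv
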