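import Pool.Agent.PyberSolv.Basic

namespace Pool.Agent.PyberSolv

open MulAction

universe u

/-- An `H`-set over `H`: an equivariant map to `H` (acting on itself by conjugation), such that each
point is fixed by its image. -/
structure Over (H Y : Type u) [Group H] [MulAction H Y] where
  q : Y → H
  equi : ∀ (h : H) (y : Y), q (h • y) = h * q y * h⁻¹
  fix : ∀ y : Y, q y • y = y

namespace Over

variable {H Y : Type u} [Group H] [MulAction H Y] (O : Over H Y) (N : Subgroup H)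

theorem comm_of_fix {h : H} {y : Y} (hy : h • y = y) : h * O.q y = O.q y * h := by
  have := O.equi h y
  rw [hy] at this
  rw [eq_mul_inv_iff_mul_eq] at this
  exact this.symm

/-- Pairs `(y,x)` with `x ∈ N` commuting with `q y`. -/
structure Pre : Type u where
  y : Y
  x : H
  mem : x ∈ N
  comm : x * O.q y = O.q y * x

/-- The relation `(y,x) ~ (ny, xs)`, `n ∈ C_N(q y)`, `s ∈ N_y`. -/
def rel (s t : O.Pre N) : Prop :=
  ∃ n ∈ N, n * O.q s.y = O.q s.y * n ∧ t.y = n • s.y ∧ (s.x⁻¹ * t.x) • s.y = s.y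

variable {N}

theorem q_eq_of_comm {n : H} {y : Y} (h : n * O.q y = O.q y * n) : O.q (n • y) = O.q y := by
  rw [O.equi, h, mul_assoc, mul_inv_cancel, mul_one]

/-- If `N` is commutative, elements of `N` have the same stabiliser in `N` along `N`-orbits. -/
theorem stab_shift (hN : ∀ x ∈ N, ∀ y ∈ N, x * y = y * x) {n x : H} (hn : n ∈ N) (hx : x ∈ N)
    {y : Y} : x • n • y = n • y ↔ x • y = y := by
  rw [smul_smul, hN x hx n hn, mul_smul]
  exact (smul_left_cancel_iff n)

theorem rel_equiv (hN : ∀ x ∈ N, ∀ y ∈ N, x * y = y * x) : Equivalence (O.rel N) := by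
  refine ⟨?_, ?_, ?_⟩
  · rintro ⟨y, x, hx, hxc⟩
    exact ⟨1, N.one_mem, by simp, by simp, by simp⟩
  · rintro ⟨y, x, hx, hxc⟩ ⟨y', x', hx', hxc'⟩ ⟨n, hn, hc, h1, h2⟩
    simp only at hc h1 h2 hx hx'
    refine ⟨n⁻¹, N.inv_mem hn, ?_, ?_, ?_⟩
    · simp only
      rw [h1, O.q_eq_of_comm hc, inv_mul_eq_iff_eq_mul, ← mul_assoc, hc, mul_assoc,
        mul_inv_cancel, mul_one]
    · simp only
      rw [h1, inv_smul_smul]
    · simp only
      rw [h1, stab_shift hN hn (N.mul_mem (N.inv_mem hx') hx)]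
      have : x'⁻¹ * x = (x⁻¹ * x')⁻¹ := by group
      rw [this, inv_smul_eq_iff, h2]
  · rintro ⟨y, x, hx, hxc⟩ ⟨y', x', hx', hxc'⟩ ⟨y'', x'', hx'', hxc''⟩ ⟨n, hn, hc, h1, h2⟩
      ⟨m, hm, hc', h1', h2'⟩
    simp only at hc h1 h2 hx hx' hc' h1' h2' hx''
    refine ⟨m * n, N.mul_mem hm hn, ?_, ?_, ?_⟩
    · simp only
      rw [h1, O.q_eq_of_comm hc] at hc'
      rw [mul_assoc, hc, ← mul_assoc, hc', mul_assoc]
    · simp only
      rw [h1', h1, mul_smul]
    · simp only
      rw [h1, stab_shift hN hn (N.mul_mem (N.inv_mem hx') hx'')] at h2'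
      have : x⁻¹ * x'' = (x⁻¹ * x') * (x'⁻¹ * x'') := by group
      rw [this, mul_smul, h2', h2]

variable (N)

/-- The setoid. -/
def setoid (hN : ∀ x ∈ N, ∀ y ∈ N, x * y = y * x) : Setoid (O.Pre N) := ⟨O.rel N, O.rel_equiv hN⟩

/-- The linearised `H`-set. -/
def Sharp (hN : ∀ x ∈ N, ∀ y ∈ N, x * y = y * x) : Type u := Quotient (O.setoid N hN)

/-- The class of a pair. -/
def cls (hN : ∀ x ∈ N, ∀ y ∈ N, x * y = y * x) (t : O.Pre N) : O.Sharp N hN :=
  Quotient.mk (O.setoid N hN) t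

variable {N}

theorem cls_surj (hN : ∀ x ∈ N, ∀ y ∈ N, x * y = y * x) (z : O.Sharp N hN) :
    ∃ t, O.cls N hN t = z := Quotient.exists_rep z

theorem cls_eq (hN : ∀ x ∈ N, ∀ y ∈ N, x * y = y * x) {s t : O.Pre N} :
    O.cls N hN s = O.cls N hN t ↔ O.rel N s t :=
  ⟨fun h => Quotient.exact h, fun h => Quotient.sound (s := O.setoid N hN) h⟩

variable [N.Normal]

/-- Action on pairs. -/
def act (h : H) (t : O.Pre N) : O.Pre N :=
  ⟨h • t.y, h * t.x * h⁻¹, ‹N.Normal›.conj_mem _ t.mem h, by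
    simp only [O.equi]
    have := t.comm
    calc h * t.x * h⁻¹ * (h * O.q t.y * h⁻¹) = h * (t.x * O.q t.y) * h⁻¹ := by group
      _ = h * (O.q t.y * t.x) * h⁻¹ := by rw [this]
      _ = _ := by group⟩

omit [N.Normal] in
theorem Pre.ext' {s t : O.Pre N} (h1 : s.y = t.y) (h2 : s.x = t.x) : s = t := by
  cases s; cases t; simp_all

theorem act_rel (h : H) {s t : O.Pre N} (hst : O.rel N s t) :
    O.rel N (O.act h s) (O.act h t) := by
  obtain ⟨n, hn, hc, h1, h2⟩ := hst
  refine ⟨h * n * h⁻¹, ‹N.Normal›.conj_mem _ hn h, ?_, ?_, ?_⟩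
  · simp only [act, O.equi]
    calc h * n * h⁻¹ * (h * O.q s.y * h⁻¹) = h * (n * O.q s.y) * h⁻¹ := by group
      _ = h * (O.q s.y * n) * h⁻¹ := by rw [hc]
      _ = _ := by group
  · simp only [act]
    rw [h1, smul_smul, smul_smul]
    congr 1
    group
  · simp only [act]
    rw [smul_smul]
    have : (h * s.x * h⁻¹)⁻¹ * (h * t.x * h⁻¹) * h = h * (s.x⁻¹ * t.x) := by group
    rw [this, mul_smul, h2]

instance instActionSharp (hN : ∀ x ∈ N, ∀ y ∈ N, x * y = y * x) : MulAction H (O.Sharp N hN) where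
  smul h := Quotient.map (O.act h) (fun _ _ hst => O.act_rel h hst)
  one_smul z := by
    induction z using Quotient.inductionOn with
    | _ t =>
      change Quotient.mk _ (O.act 1 t) = Quotient.mk _ t
      congr 1
      apply Pre.ext' <;> simp [act]
  mul_smul h k z := by
    induction z using Quotient.inductionOn with
    | _ t =>
      change Quotient.mk _ (O.act (h * k) t) = Quotient.mk _ (O.act h (O.act k t))
      congr 1
      apply Pre.ext' <;> simp [act, mul_smul, mul_assoc]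

theorem smul_cls (hN : ∀ x ∈ N, ∀ y ∈ N, x * y = y * x) (h : H) (t : O.Pre N) :
    h • O.cls N hN t = O.cls N hN (O.act h t) := rfl

/-- The linearised set is again over `H`. -/
def sharp (hN : ∀ x ∈ N, ∀ y ∈ N, x * y = y * x) : Over H (O.Sharp N hN) where
  q := Quotient.lift (fun t => O.q t.y) (by
    rintro s t ⟨n, hn, hc, h1, h2⟩
    rw [h1, O.q_eq_of_comm hc])
  equi h z := by
    induction z using Quotient.inductionOn with
    | _ t => exact O.equi h t.y
  fix z := by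
    induction z using Quotient.inductionOn with
    | _ t =>
      change O.cls N hN (O.act (O.q t.y) t) = O.cls N hN t
      congr 1
      apply Pre.ext'
      · exact O.fix t.y
      · simp only [act]
        rw [← t.comm, mul_assoc, mul_inv_cancel, mul_one]

@[simp] theorem sharp_q_cls (hN : ∀ x ∈ N, ∀ y ∈ N, x * y = y * x) (t : O.Pre N) :
    (O.sharp hN).q (O.cls N hN t) = O.q t.y := rfl

/-- Elements of `N` commuting with the base element act trivially. -/
theorem sharp_triv (hN : ∀ x ∈ N, ∀ y ∈ N, x * y = y * x) (n : H) (hn : n ∈ N)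
    (z : O.Sharp N hN) (hc : n * (O.sharp hN).q z = (O.sharp hN).q z * n) : n • z = z := by
  obtain ⟨t, rfl⟩ := O.cls_surj hN z
  rw [smul_cls, O.cls_eq]
  refine (O.rel_equiv hN).symm ?_
  refine ⟨n, hn, hc, rfl, ?_⟩
  simp only [act]
  rw [hN n hn _ t.mem, mul_assoc, mul_inv_cancel, mul_one, inv_mul_cancel, one_smul]

/-- Points over `a` fixed by `D`. -/
def Fx (a : H) (D : Set H) : Type u := {y : Y // O.q y = a ∧ ∀ d ∈ D, d • y = y}

omit [N.Normal] in
theorem exists_rep (a : H) (D : Set H) :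
    ∃ (rep : O.Fx a D → O.Fx a D) (nn : O.Fx a D → H),
      (∀ y, nn y ∈ N ∧ nn y * a = a * nn y ∧ y.1 = nn y • (rep y).1) ∧
      ∀ y y' : O.Fx a D, (∃ n ∈ N, n * a = a * n ∧ y'.1 = n • y.1) → rep y = rep y' := by
  let st : Setoid (O.Fx a D) :=
    { r := fun y y' => ∃ n ∈ N, n * a = a * n ∧ y'.1 = n • y.1
      iseqv := by
        refine ⟨fun y => ⟨1, N.one_mem, by simp, by simp⟩, ?_, ?_⟩
        · rintro y y' ⟨n, hn, hc, h⟩
          refine ⟨n⁻¹, N.inv_mem hn, ?_, by rw [h, inv_smul_smul]⟩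
          rw [inv_mul_eq_iff_eq_mul, ← mul_assoc, hc, mul_assoc, mul_inv_cancel, mul_one]
        · rintro y y' y'' ⟨n, hn, hc, h⟩ ⟨m, hm, hc', h'⟩
          refine ⟨m * n, N.mul_mem hm hn, ?_, by rw [h', h, mul_smul]⟩
          rw [mul_assoc, hc, ← mul_assoc, hc', mul_assoc] }
  have h1 : ∀ y : O.Fx a D, ∃ n ∈ N, n * a = a * n ∧
      y.1 = n • ((Quotient.mk st y).out).1 := fun y => Quotient.mk_out y
  choose nn hnn using h1
  refine ⟨fun y => (Quotient.mk st y).out, nn, fun y => hnn y, ?_⟩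
  intro y y' h
  have : Quotient.mk st y = Quotient.mk st y' := Quotient.sound h
  simp only
  rw [this]

omit [N.Normal] in
theorem finite_pre [Finite Y] [Finite H] : Finite (O.Pre N) :=
  Finite.of_injective (fun t : O.Pre N => (t.y, t.x)) (by
    intro s t h
    simp only [Prod.mk.injEq] at h
    exact Pre.ext' O h.1 h.2)

/-- The class attached to a fixed point is fixed. -/
theorem cls_fixed (hN : ∀ x ∈ N, ∀ y ∈ N, x * y = y * x) {y y0 : Y} {n : H}
    (hn : n ∈ N) (hc : n * O.q y = O.q y * n) (hy : y = n • y0) {d : H}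
    (e1 : d • y = y) (e2 : d • y0 = y0) :
    d • O.cls N hN ⟨y, n, hn, hc⟩ = O.cls N hN ⟨y, n, hn, hc⟩ := by
  rw [smul_cls, O.cls_eq]
  refine ⟨1, N.one_mem, by simp, ?_, ?_⟩
  · simp only [act, one_smul]
    exact e1.symm
  · simp only [act]
    have hm : (d * n * d⁻¹)⁻¹ * n ∈ N :=
      N.mul_mem (N.inv_mem (‹N.Normal›.conj_mem _ hn d)) hn
    rw [e1]
    rw [hy] at e1 ⊢
    rw [stab_shift hN hn hm, mul_smul, inv_smul_eq_iff, mul_smul, mul_smul]
    rw [← e1]
    congr 2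
    rw [eq_comm, inv_smul_eq_iff, e2]

/-- Marks inequality. -/
theorem marks_le [Finite Y] [Finite H] (hN : ∀ x ∈ N, ∀ y ∈ N, x * y = y * x) (a : H)
    (D : Set H) :
    Nat.card (O.Fx a D) ≤ Nat.card ((O.sharp hN).Fx a D) := by
  have : Finite (O.Pre N) := O.finite_pre
  have : Finite (O.Sharp N hN) := Quotient.finite _
  have : Finite ((O.sharp hN).Fx a D) := Subtype.finite
  obtain ⟨rep, nn, hnn, hrep⟩ := O.exists_rep (N := N) a D
  have hcm : ∀ y : O.Fx a D, nn y * O.q y.1 = O.q y.1 * nn y := by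
    intro y
    rw [y.2.1]; exact (hnn y).2.1
  let t : O.Fx a D → O.Pre N := fun y => ⟨y.1, nn y, (hnn y).1, hcm y⟩
  have hfix : ∀ y : O.Fx a D, ∀ d ∈ D, d • O.cls N hN (t y) = O.cls N hN (t y) :=
    fun y d hd => O.cls_fixed hN (hnn y).1 (hcm y) (hnn y).2.2 (y.2.2 d hd) ((rep y).2.2 d hd)
  refine Nat.card_le_card_of_injective
    (fun y => (⟨O.cls N hN (t y), y.2.1, hfix y⟩ : (O.sharp hN).Fx a D)) ?_
  intro y y' hyy
  have h1 : O.cls N hN (t y) = O.cls N hN (t y') := congrArg Subtype.val hyy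
  rw [O.cls_eq] at h1
  obtain ⟨n, hn, hc, h2, h3⟩ := h1
  simp only [t] at hc h2 h3
  rw [y.2.1] at hc
  have hr : rep y = rep y' := hrep y y' ⟨n, hn, hc, h2⟩
  have hm : (nn y)⁻¹ * nn y' ∈ N := N.mul_mem (N.inv_mem (hnn y).1) (hnn y').1
  rw [(hnn y).2.2, stab_shift hN (hnn y).1 hm, mul_smul, inv_smul_eq_iff] at h3
  apply Subtype.ext
  rw [(hnn y).2.2, (hnn y').2.2, ← hr, h3]

/-- Marks equality in the coprime cyclic case. -/
theorem le_marks [Finite Y] [Finite H] (hN : ∀ x ∈ N, ∀ y ∈ N, x * y = y * x) (a d : H)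
    (hd : Nat.Coprime (orderOf d) (Nat.card N)) :
    Nat.card ((O.sharp hN).Fx a {d}) ≤ Nat.card (O.Fx a {d}) := by
  have : Finite (O.Fx a {d}) := Subtype.finite
  obtain ⟨rep, nn, hnn, hrep⟩ := O.exists_rep (N := N) a {d}
  have hcm : ∀ y : O.Fx a {d}, nn y * O.q y.1 = O.q y.1 * nn y := by
    intro y
    rw [y.2.1]; exact (hnn y).2.1
  let t : O.Fx a {d} → O.Pre N := fun y => ⟨y.1, nn y, (hnn y).1, hcm y⟩
  -- every fixed class comes from a fixed point
  have key : ∀ z : (O.sharp hN).Fx a {d}, ∃ y : O.Fx a {d}, O.cls N hN (t y) = z.1 := by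
    rintro ⟨z, hz, hz2⟩
    obtain ⟨⟨y, x, hxN, hxc⟩, rfl⟩ := O.cls_surj hN z
    have hz3 : O.rel N (O.act d ⟨y, x, hxN, hxc⟩) ⟨y, x, hxN, hxc⟩ :=
      (O.cls_eq hN).1 (hz2 d rfl)
    obtain ⟨n, hn, hc, h1, h2⟩ := hz3
    simp only [act] at hc h1 h2
    simp only [sharp_q_cls] at hz
    have hda : d * a = a * d := by
      have e := O.q_eq_of_comm hc
      rw [← h1, hz, O.equi, hz] at e
      rw [eq_mul_inv_iff_mul_eq] at e
      exact e.symm
    have hqd : O.q (d • y) = a := by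
      rw [O.equi, hz, hda, mul_assoc, mul_inv_cancel, mul_one]
    rw [hqd] at hc
    -- the centraliser of `a` in `N`
    let M : Subgroup H := N ⊓ Subgroup.centralizer {a}
    have hM : ∀ m : H, m ∈ M ↔ m ∈ N ∧ m * a = a * m := by
      intro m
      simp only [M, Subgroup.mem_inf, Subgroup.mem_centralizer_singleton_iff]
    let _ : CommGroup M :=
      { (inferInstance : Group M) with
        mul_comm := fun u v => Subtype.ext (hN u.1 ((hM _).1 u.2).1 v.1 ((hM _).1 v.2).1) }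
    have hconj : ∀ m : H, m ∈ M → d * m * d⁻¹ ∈ M := by
      intro m hm
      rw [hM] at hm ⊢
      refine ⟨‹N.Normal›.conj_mem _ hm.1 d, ?_⟩
      have e1 : d⁻¹ * a = a * d⁻¹ := by
        rw [inv_mul_eq_iff_eq_mul, ← mul_assoc, hda, mul_assoc, mul_inv_cancel, mul_one]
      calc d * m * d⁻¹ * a = d * m * (d⁻¹ * a) := by group
        _ = d * m * (a * d⁻¹) := by rw [e1]
        _ = d * (m * a) * d⁻¹ := by group
        _ = d * (a * m) * d⁻¹ := by rw [hm.2]
        _ = (d * a) * m * d⁻¹ := by group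
        _ = (a * d) * m * d⁻¹ := by rw [hda]
        _ = a * (d * m * d⁻¹) := by group
    let σ : M →* M :=
      { toFun := fun m => ⟨d * m.1 * d⁻¹, hconj m.1 m.2⟩
        map_one' := by apply Subtype.ext; simp
        map_mul' := fun u v => by
          apply Subtype.ext
          simp only [Subgroup.coe_mul]
          group }
    have hcard : Nat.Coprime (orderOf d) (Nat.card M) :=
      Nat.Coprime.coprime_dvd_right (Subgroup.card_dvd_of_le inf_le_left) hd
    have hiter : ∀ (k : ℕ) (s : Y), (fun s : Y => d • s)^[k] s = d ^ k • s := by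
      intro k s
      induction k with
      | zero => simp
      | succ k ih => rw [Function.iterate_succ_apply', ih, pow_succ', mul_smul]
    have hnM : n⁻¹ ∈ M := by
      rw [hM]
      refine ⟨N.inv_mem hn, ?_⟩
      rw [inv_mul_eq_iff_eq_mul, ← mul_assoc, hc, mul_assoc, mul_inv_cancel, mul_one]
    obtain ⟨m, hm⟩ := torsor_fix (M := M) (S := Y) σ (fun s => d • s)
      (by
        intro m s
        change d • (m.1 • s) = (d * m.1 * d⁻¹) • d • s
        rw [smul_smul, smul_smul]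
        congr 1
        group) (orderOf d) hcard y
      (by rw [hiter, pow_orderOf_eq_one, one_smul]) ⟨n⁻¹, hnM⟩
      (by
        change d • y = n⁻¹ • y
        rw [eq_inv_smul_iff]
        exact h1.symm)
    have hm' : d • m.1 • y = m.1 • y := hm
    have hmM := (hM _).1 m.2
    have hqm : O.q (m.1 • y) = a := by
      rw [O.q_eq_of_comm (by rw [hz]; exact hmM.2), hz]
    let y1 : O.Fx a {d} := ⟨m.1 • y, hqm, by
      intro d' hd'
      rw [Set.mem_singleton_iff] at hd'
      rw [hd']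
      exact hm'⟩
    let y0 := rep y1
    have hy0 : y1.1 = nn y1 • y0.1 := (hnn y1).2.2
    -- `y0` is in the same `C_N(a)`-orbit as `y`
    have hxa : x * a = a * x := by rw [← hz]; exact hxc
    have hdxN : d * x * d⁻¹ ∈ N := ‹N.Normal›.conj_mem _ hxN d
    have h3 : ((d * x * d⁻¹)⁻¹ * x) • y0.1 = y0.1 := by
      have hk : (d * x * d⁻¹)⁻¹ * x ∈ N := N.mul_mem (N.inv_mem hdxN) hxN
      have e1 : d • y = n⁻¹ • y := by
        rw [eq_inv_smul_iff]; exact h1.symm
      rw [e1, stab_shift hN (N.inv_mem hn) hk] at h2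
      have e2 : ((d * x * d⁻¹)⁻¹ * x) • (m.1 • y) = m.1 • y := by
        rw [stab_shift hN hmM.1 hk]; exact h2
      have e3 : m.1 • y = nn y1 • y0.1 := hy0
      rw [e3, stab_shift hN (hnn y1).1 hk] at e2
      exact e2
    have hdy0 : d • y0.1 = y0.1 := y0.2.2 d rfl
    have hqy2 : O.q (x • y0.1) = a := by
      rw [O.q_eq_of_comm (by rw [y0.2.1]; exact hxa), y0.2.1]
    have hdy2 : d • x • y0.1 = x • y0.1 := by
      have e1 : d • x • y0.1 = (d * x * d⁻¹) • y0.1 := by
        rw [mul_smul, mul_smul]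
        congr 2
        rw [eq_inv_smul_iff]; exact hdy0
      rw [e1]
      rw [mul_smul, inv_smul_eq_iff] at h3
      exact h3.symm
    let y2 : O.Fx a {d} := ⟨x • y0.1, hqy2, by
      intro d' hd'
      rw [Set.mem_singleton_iff] at hd'
      rw [hd']
      exact hdy2⟩
    have hr1 : rep y0 = rep y1 := hrep y0 y1 ⟨nn y1, (hnn y1).1, (hnn y1).2.1, hy0⟩
    have hr2 : rep y0 = rep y2 := hrep y0 y2 ⟨x, hxN, hxa, rfl⟩
    have hr : rep y2 = y0 := by rw [← hr2, hr1]
    refine ⟨y2, ?_⟩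
    change O.cls N hN (t y2) = O.cls N hN ⟨y, x, hxN, hxc⟩
    rw [O.cls_eq]
    -- `y = k • y2`
    have hyy : y = (m.1⁻¹ * nn y1 * x⁻¹) • y2.1 := by
      change y = (m.1⁻¹ * nn y1 * x⁻¹) • (x • y0.1)
      rw [smul_smul]
      have : m.1⁻¹ * nn y1 * x⁻¹ * x = m.1⁻¹ * nn y1 := by group
      rw [this, mul_smul, ← hy0, inv_smul_smul]
    have hkN : m.1⁻¹ * nn y1 * x⁻¹ ∈ N :=
      N.mul_mem (N.mul_mem (N.inv_mem hmM.1) (hnn y1).1) (N.inv_mem hxN)
    have hka : m.1⁻¹ * nn y1 * x⁻¹ * a = a * (m.1⁻¹ * nn y1 * x⁻¹) := by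
      have f1 : Commute m.1 a := hmM.2
      have f2 : Commute (nn y1) a := (hnn y1).2.1
      have f3 : Commute x a := hxa
      exact ((f1.inv_left.mul_left f2).mul_left f3.inv_left)
    refine ⟨m.1⁻¹ * nn y1 * x⁻¹, hkN, ?_, hyy, ?_⟩
    · simp only [t]
      rw [y2.2.1]
      exact hka
    · simp only [t]
      have e1 : y2.1 = nn y2 • y0.1 := by
        have := (hnn y2).2.2
        rw [hr] at this
        exact this
      have e2 : x • y0.1 = nn y2 • y0.1 := e1
      have hk : (nn y2)⁻¹ * x ∈ N := N.mul_mem (N.inv_mem (hnn y2).1) hxN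
      rw [e1, stab_shift hN (hnn y2).1 hk, mul_smul, inv_smul_eq_iff, e2]
  refine Nat.card_le_card_of_surjective
    (fun y => (⟨O.cls N hN (t y), y.2.1, ?_⟩ : (O.sharp hN).Fx a {d})) ?_
  · intro d' hd'
    rw [Set.mem_singleton_iff] at hd'
    subst hd'
    exact O.cls_fixed hN (hnn y).1 (hcm y) (hnn y).2.2 (y.2.2 d' rfl) ((rep y).2.2 d' rfl)
  · intro z
    obtain ⟨y, hy⟩ := key z
    exact ⟨y, Subtype.ext hy⟩

end Over

end Pool.Agent.PyberSolv
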